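import Mathlib
import Pool.Agent.Lib.MP_10bb55_an.Chart

/-!
A negative answer in every degree `d ≥ 2`: the map
`[z₀ : z₁ : z₂] ↦ [a z₀ z₂^(d-1) + z₁^d : a z₁ z₂^(d-1) + z₀^d : z₂^d]`, `a = d/(d+1)`,
has at each fixed point an eigenvalue of modulus `< 1`, and no eigenvalue equal to `1`.
-/

namespace Pool.Agent.Results.MP_10bb55_an.NoRepelling

open scoped LinearAlgebra.Projectivization

/-- A holomorphic self-map of `ℙ²` of degree `d`: three homogeneous polynomials of degree `d`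
whose only common zero in `ℂ³` is `0`. -/
structure HolMap (d : ℕ) where
  F : Fin 3 → MvPolynomial (Fin 3) ℂ
  homogeneous : ∀ i, (F i).IsHomogeneous d
  nondeg : ∀ z : Fin 3 → ℂ, (fun i => MvPolynomial.eval z (F i)) = 0 → z = 0

/-- The polynomial lift `z ↦ (F₀(z), F₁(z), F₂(z))` on `ℂ³`. -/
noncomputable def HolMap.lift {d : ℕ} (f : HolMap d) (z : Fin 3 → ℂ) : Fin 3 → ℂ :=
  fun i => MvPolynomial.eval z (f.F i)

/-- The map `[z] ↦ [F₀(z) : F₁(z) : F₂(z)]` on the projective plane. -/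
noncomputable def HolMap.toFun {d : ℕ} (f : HolMap d) (p : ℙ ℂ (Fin 3 → ℂ)) : ℙ ℂ (Fin 3 → ℂ) :=
  Projectivization.mk ℂ (f.lift p.rep) (fun h => p.rep_nonzero (f.nondeg p.rep h))

/-- Affine coordinates `(z_k / z_i)_{k ≠ i}` of a vector in the standard chart `{z_i ≠ 0}`. -/
noncomputable def coords (i : Fin 3) (z : Fin 3 → ℂ) : Fin 2 → ℂ :=
  fun j => z (i.succAbove j) / z i

/-- The map `f` read in the standard chart `{z_i ≠ 0}` (source and target): put `1` in place `i`,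
apply the lift, take affine coordinates. -/
noncomputable def HolMap.inChart {d : ℕ} (f : HolMap d) (i : Fin 3) (w : Fin 2 → ℂ) : Fin 2 → ℂ :=
  coords i (f.lift (Fin.insertNth (α := fun _ => ℂ) i 1 w))

open Pool.Agent.Lib.MP_10bb55_an MvPolynomial in
theorem result (d : ℕ) (hd : 2 ≤ d) :
    ∃ f : HolMap d, ∀ p : ℙ ℂ (Fin 3 → ℂ), f.toFun p = p →
      ∀ i : Fin 3, p.rep i ≠ 0 →
        ∃ D : (Fin 2 → ℂ) →L[ℂ] (Fin 2 → ℂ), HasFDerivAt (f.inChart i) D (coords i p.rep) ∧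
          (∃ μ : ℂ, Module.End.HasEigenvalue (D : (Fin 2 → ℂ) →ₗ[ℂ] (Fin 2 → ℂ)) μ ∧ ‖μ‖ < 1) ∧
          ¬ Module.End.HasEigenvalue (D : (Fin 2 → ℂ) →ₗ[ℂ] (Fin 2 → ℂ)) 1 := by
  obtain ⟨n, rfl⟩ : ∃ n, d = n + 2 := ⟨d - 2, by omega⟩
  let F : Fin 3 → MvPolynomial (Fin 3) ℂ :=
    ![C ((n + 2 : ℂ) / (n + 3)) * X 0 * X 2 ^ (n + 1) + X 1 ^ (n + 2),
      C ((n + 2 : ℂ) / (n + 3)) * X 1 * X 2 ^ (n + 1) + X 0 ^ (n + 2),
      X 2 ^ (n + 2)]
  have hF : ∀ z : Fin 3 → ℂ, (fun i => MvPolynomial.eval z (F i)) = exG n z := by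
    intro z; funext k; fin_cases k <;> simp [F, exG]
  have hmon : ∀ k : Fin 3, (C ((n + 2 : ℂ) / (n + 3)) * X k * X 2 ^ (n + 1) :
      MvPolynomial (Fin 3) ℂ).IsHomogeneous (n + 2) := by
    intro k
    have := ((isHomogeneous_C (Fin 3) ((n + 2 : ℂ) / (n + 3))).mul (isHomogeneous_X ℂ k)).mul
      (isHomogeneous_X_pow (R := ℂ) (2 : Fin 3) (n + 1))
    convert this using 1; omega
  have hhom : ∀ i, (F i).IsHomogeneous (n + 2) := by
    intro i
    fin_cases i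
    · exact (hmon 0).add (isHomogeneous_X_pow _ _)
    · exact (hmon 1).add (isHomogeneous_X_pow _ _)
    · exact isHomogeneous_X_pow _ _
  refine ⟨⟨F, hhom, fun z h => exG_eq_zero n z (by rw [← hF, h])⟩, ?_⟩
  intro p hp i hi
  have hlift : ∀ z, HolMap.lift ⟨F, hhom, fun z h => exG_eq_zero n z (by rw [← hF, h])⟩ z
      = exG n z := hF
  unfold HolMap.toFun at hp
  conv_rhs at hp => rw [← Projectivization.mk_rep p]
  obtain ⟨c, hc⟩ := (Projectivization.mk_eq_mk_iff ℂ _ _ _ _).1 hp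
  rw [hlift] at hc
  have hz : Fin.insertNth (α := fun _ => ℂ) i 1 (coords i p.rep) = (p.rep i)⁻¹ • p.rep := by
    funext k
    induction k using i.succAboveCases with
    | x => simp [hi]
    | p j => simp [coords, div_eq_inv_mul]
  have hfix : exG n (Fin.insertNth (α := fun _ => ℂ) i 1 (coords i p.rep))
      = ((p.rep i)⁻¹ ^ (n + 1) * c) • Fin.insertNth (α := fun _ => ℂ) i 1 (coords i p.rep) := by
    rw [hz, exG_smul, ← hc, Units.smul_def, smul_smul, smul_smul]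
    congr 1; ring
  obtain ⟨D, hD, ⟨μ, hμ, v, hv, hDv⟩, h1⟩ := exG_chart n i _ _
    (mul_ne_zero (pow_ne_zero _ (inv_ne_zero hi)) c.ne_zero) hfix
  refine ⟨D, ?_, ⟨μ, ?_, hμ⟩, ?_⟩
  · convert hD using 1
    funext w j
    simp only [HolMap.inChart, coords, hlift]
  · exact Module.End.hasEigenvalue_of_hasEigenvector ⟨Module.End.mem_eigenspace_iff.2 hDv, hv⟩
  · intro h
    obtain ⟨u, hu⟩ := h.exists_hasEigenvector
    exact hu.2 (h1 u (by simpa using hu.apply_eq_smul))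

end Pool.Agent.Results.MP_10bb55_an.NoRepelling
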